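import Mathlib

/-!
# Intersections of two quadrics and R-equivalence: the basic definitions
-/

set_option autoImplicit false

namespace Pool.Agent.Lib.MP_8ab79f_ag

open MvPolynomial

/-- The subscheme `f = g = 0` of the projective space of dimension `n` over `k` is a smooth
complete intersection of two quadrics: `f` and `g` are homogeneous of degree two and at every
nonzero common zero of `f` and `g` over the algebraic closure the two gradients are linearly
independent. -/
def SmoothTwoQuadrics {k : Type*} [Field k] {n : ℕ} (f g : MvPolynomial (Fin (n + 1)) k) : Prop :=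
  f.IsHomogeneous 2 ∧ g.IsHomogeneous 2 ∧
    ∀ v : Fin (n + 1) → AlgebraicClosure k, v ≠ 0 → aeval v f = 0 → aeval v g = 0 →
      LinearIndependent (AlgebraicClosure k)
        ![fun i => aeval v (pderiv i f), fun i => aeval v (pderiv i g)]

/-- The set of `k`-points of the projective scheme `f = g = 0`. -/
def ratPoints {k : Type*} [Field k] {n : ℕ} (f g : MvPolynomial (Fin (n + 1)) k) :
    Set (Projectivization k (Fin (n + 1) → k)) :=
  {P | eval P.rep f = 0 ∧ eval P.rep g = 0}

/-- `P` and `Q` are directly R-linked on `f = g = 0`: there are binary forms `φ i` of one degree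
with `f (φ) = g (φ) = 0`, that is, a morphism from an open subset of the projective line to
`f = g = 0`, and `k`-points `u` and `v` of the projective line at which it is defined and takes the
values `P` and `Q`. -/
def DirectlyLinked {k : Type*} [Field k] {n : ℕ} (f g : MvPolynomial (Fin (n + 1)) k)
    (P Q : Projectivization k (Fin (n + 1) → k)) : Prop :=
  ∃ (d : ℕ) (φ : Fin (n + 1) → MvPolynomial (Fin 2) k),
    (∀ i, (φ i).IsHomogeneous d) ∧ aeval φ f = 0 ∧ aeval φ g = 0 ∧
      ∃ (u v : Fin 2 → k) (hu : (fun i => eval u (φ i)) ≠ 0) (hv : (fun i => eval v (φ i)) ≠ 0),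
        u ≠ 0 ∧ v ≠ 0 ∧
          P = Projectivization.mk k _ hu ∧ Q = Projectivization.mk k _ hv

/-- The set `X(k)/R` of R-equivalence classes of `k`-points of `f = g = 0`: the quotient by the
equivalence relation generated by direct R-linkage. -/
def RClasses {k : Type*} [Field k] {n : ℕ} (f g : MvPolynomial (Fin (n + 1)) k) : Type _ :=
  Quot fun P Q : ratPoints f g => DirectlyLinked f g P Q

end Pool.Agent.Lib.MP_8ab79f_ag
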