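import Pool.Agent.Lib.MP_8ab79f_ag.Padic

/-!
# R-equivalence on three-dimensional intersections of two quadrics over `p`-adic fields

Over every `p`-adic field `k` there is a smooth complete intersection of two quadrics in the
projective space of dimension five over `k` with at least two R-equivalence classes of `k`-points.
This answers the case `n = 5` of the question in the negative.
-/

set_option autoImplicit false


universe u

namespace Pool.Agent.Lib.MP_8ab79f_ag.DimFiveShelf


/-- For every prime `p` and every finite extension `k` of the field of `p`-adic numbers there is
a smooth complete intersection of two quadrics in the projective space of dimension five over `k`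
having at least two R-equivalence classes of `k`-points. -/
theorem dimFive (p : ℕ) [Fact p.Prime] (k : Type u) [Field k] [Algebra ℚ_[p] k]
    [FiniteDimensional ℚ_[p] k] :
    ∃ f g : MvPolynomial (Fin (5 + 1)) k, SmoothTwoQuadrics f g ∧ Nontrivial (RClasses f g) :=
  of_padic p k

end Pool.Agent.Lib.MP_8ab79f_ag.DimFiveShelf
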