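import Pool.Agent.Lib.MP_8ab79f_ag.Mg.G002

/-!
# Finite extensions of the field of `p`-adic numbers as fraction fields
-/

set_option autoImplicit false
set_option linter.unusedSectionVars false

namespace Pool.Agent.Lib.MP_8ab79f_ag

/-- A finite field has an anisotropic norm form. -/
theorem exists_aniso (κ : Type*) [Field κ] [Finite κ] : ∃ θ : κ, Aniso θ := by
  have hni : ¬ Function.Injective (fun x : κ => -(x ^ 2 + x)) := by
    intro h
    have : (0 : κ) = -1 := h (by simp)
    exact one_ne_zero (neg_eq_zero.1 this.symm)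
  rw [Finite.injective_iff_surjective] at hni
  unfold Function.Surjective at hni
  push Not at hni
  obtain ⟨θ, hθ⟩ := hni
  refine ⟨θ, fun x y h => ?_⟩
  by_cases hy : y = 0
  · subst hy
    refine ⟨?_, rfl⟩
    have : x ^ 2 = 0 := by linear_combination h
    exact pow_eq_zero_iff two_ne_zero |>.1 this
  · exfalso
    apply hθ (x / y)
    field_simp
    linear_combination -h

/-- The case of the fraction field of a discrete valuation ring with finite residue field. -/
theorem of_dvr (O : Type*) [CommRing O] [IsDomain O] [IsDiscreteValuationRing O]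
    [Finite (O ⧸ IsLocalRing.maximalIdeal O)] (h2 : (2 : O) ≠ 0)
    (k : Type*) [Field k] [Algebra O k] [IsFractionRing O k] :
    ∃ f g : MvPolynomial (Fin 6) k, SmoothTwoQuadrics (n := 5) f g ∧
      Nontrivial (RClasses (n := 5) f g) := by
  obtain ⟨π, hπ⟩ := IsDiscreteValuationRing.exists_irreducible O
  have hm : IsLocalRing.maximalIdeal O = Ideal.span {π} := hπ.maximalIdeal_eq
  have hfin : Finite (O ⧸ Ideal.span {π}) := by
    rw [← hm]
    infer_instance
  have hmax : (Ideal.span {π}).IsMaximal := by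
    rw [← hm]
    infer_instance
  obtain ⟨θ, hθ⟩ : ∃ θ : O ⧸ Ideal.span {π}, Aniso θ := by
    let _ := Ideal.Quotient.field (Ideal.span {π})
    exact exists_aniso (O ⧸ Ideal.span {π})
  obtain ⟨θ, rfl⟩ := Ideal.Quotient.mk_surjective θ
  exact ⟨_, _, smooth (k := k) h2 hπ.prime hθ, nontrivial_RClasses (k := k) hπ.prime hθ⟩

/-- The case of a finite extension of the field of `p`-adic numbers. -/
theorem of_padic (p : ℕ) [Fact p.Prime] (k : Type*) [Field k] [Algebra ℚ_[p] k]
    [FiniteDimensional ℚ_[p] k] :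
    ∃ f g : MvPolynomial (Fin 6) k, SmoothTwoQuadrics (n := 5) f g ∧
      Nontrivial (RClasses (n := 5) f g) := by
  let _ : Algebra ℤ_[p] k := ((algebraMap ℚ_[p] k).comp (algebraMap ℤ_[p] ℚ_[p])).toAlgebra
  have _ : IsScalarTower ℤ_[p] ℚ_[p] k := IsScalarTower.of_algebraMap_eq fun _ => rfl
  have hchar : CharZero k := charZero_of_injective_algebraMap (algebraMap ℚ_[p] k).injective
  have _ : IsFractionRing (integralClosure ℤ_[p] k) k :=
    integralClosure.isFractionRing_of_finite_extension ℚ_[p] k
  have _ : IsDedekindDomain (integralClosure ℤ_[p] k) :=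
    integralClosure.isDedekindDomain ℤ_[p] ℚ_[p] k
  have _ : Module.Finite ℤ_[p] (integralClosure ℤ_[p] k) :=
    IsIntegralClosure.finite ℤ_[p] ℚ_[p] k (integralClosure ℤ_[p] k)
  have hinj : Function.Injective (algebraMap ℤ_[p] (integralClosure ℤ_[p] k)) := by
    have h1 : Function.Injective (algebraMap ℤ_[p] k) :=
      (algebraMap ℚ_[p] k).injective.comp (IsFractionRing.injective ℤ_[p] ℚ_[p])
    intro a b hab
    apply h1
    have := congrArg (algebraMap (integralClosure ℤ_[p] k) k) hab
    exact this
  have _ : FaithfulSMul ℤ_[p] (integralClosure ℤ_[p] k) :=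
    (faithfulSMul_iff_algebraMap_injective _ _).2 hinj
  obtain ⟨Q, hQm, hQ⟩ := Ideal.exists_maximal_ideal_liesOver_of_isIntegral
    (S := integralClosure ℤ_[p] k) (IsLocalRing.maximalIdeal ℤ_[p])
  have hQ0 : Q ≠ ⊥ := by
    rintro rfl
    have h1 := hQ.over
    have h2 : (p : ℤ_[p]) ∈ IsLocalRing.maximalIdeal ℤ_[p] := by
      rw [PadicInt.maximalIdeal_eq_span_p]
      exact Ideal.mem_span_singleton_self _
    rw [h1, Ideal.mem_comap, Ideal.mem_bot, map_natCast] at h2
    have h3 : ((p : integralClosure ℤ_[p] k) : k) = 0 := by rw [h2]; rfl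
    have h4 : ((p : ℕ) : k) = 0 := by
      rw [← h3]
      simp
    exact (Fact.out : p.Prime).ne_zero (Nat.cast_eq_zero.1 h4)
  have _ : IsDiscreteValuationRing (Localization.AtPrime Q) :=
    IsLocalization.AtPrime.isDiscreteValuationRing_of_dedekind_domain _ hQ0 _
  let _ : Algebra (Localization.AtPrime Q) k :=
    IsLocalization.localizationAlgebraOfSubmonoidLe (Localization.AtPrime Q) k Q.primeCompl
      (nonZeroDivisors (integralClosure ℤ_[p] k)) Q.primeCompl_le_nonZeroDivisors
  have _ : IsScalarTower (integralClosure ℤ_[p] k) (Localization.AtPrime Q) k :=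
    IsLocalization.localization_isScalarTower_of_submonoid_le (Localization.AtPrime Q) k
      Q.primeCompl (nonZeroDivisors (integralClosure ℤ_[p] k)) Q.primeCompl_le_nonZeroDivisors
  have _ : IsFractionRing (Localization.AtPrime Q) k :=
    IsFractionRing.isFractionRing_of_isDomain_of_isLocalization Q.primeCompl _ _
  have _ : Finite (ℤ_[p] ⧸ IsLocalRing.maximalIdeal ℤ_[p]) :=
    Finite.of_equiv (ZMod p) (PadicInt.residueField (p := p)).symm.toEquiv
  have _ : Finite (integralClosure ℤ_[p] k ⧸ Q) :=
    Module.finite_of_finite (ℤ_[p] ⧸ IsLocalRing.maximalIdeal ℤ_[p])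
  have _ : Finite (Localization.AtPrime Q ⧸ IsLocalRing.maximalIdeal (Localization.AtPrime Q)) :=
    Finite.of_equiv _ (IsLocalization.AtPrime.equivQuotMaximalIdeal Q
      (Localization.AtPrime Q)).toEquiv
  have h2 : (2 : Localization.AtPrime Q) ≠ 0 := by
    intro h
    have := congrArg (algebraMap (Localization.AtPrime Q) k) h
    rw [map_ofNat, map_zero] at this
    exact two_ne_zero this
  exact of_dvr (Localization.AtPrime Q) h2 k

end Pool.Agent.Lib.MP_8ab79f_ag
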